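import Pool.Agent.Helper51.REC.Goals1

/-!
Packet REC-K_APP: weak approximation.
-/

set_option autoImplicit false

namespace Pool.Agent.Helper69.REC

open NumberField Module IsDedekindDomain Pool.Agent.Helper51.REC

/-- a small negative power -/
lemma exists_exp_lt (x : WithZero (Multiplicative ℤ)) (hx : x ≠ 0) :
    ∃ M : ℕ, WithZero.exp (-(M : ℤ)) < x := by
  refine ⟨(-(WithZero.log x) + 1).toNat, ?_⟩
  rw [← WithZero.exp_log hx, WithZero.exp_lt_exp, WithZero.log_exp]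
  have := Int.self_le_toNat (-(WithZero.log x) + 1)
  omega

theorem k_app : K_APP := by
  classical
  intro p _ F _ _ Z hZ g N
  obtain ⟨s, rfl⟩ : ∃ s : Finset (HeightOneSpectrum (𝓞 F)), (s : Set _) = Z :=
    ⟨hZ.toFinset, hZ.coe_toFinset⟩
  rcases s.eq_empty_or_nonempty with rfl | ⟨W0, hW0⟩
  · exact ⟨1, by simp⟩
  obtain ⟨D, hD⟩ := IsLocalization.exist_integer_multiples_of_finset (nonZeroDivisors (𝓞 F))
    (s.image fun W => ((g W : Fˣ) : F))
  have hD' : ∀ W ∈ s, ∃ x : 𝓞 F, algebraMap (𝓞 F) F x = algebraMap (𝓞 F) F D * (g W : F) := by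
    intro W hW
    obtain ⟨x, hx⟩ := hD _ (Finset.mem_image_of_mem _ hW)
    exact ⟨x, by rw [hx, Algebra.smul_def]⟩
  choose! x hx using hD'
  have hD0 : algebraMap (𝓞 F) F D ≠ 0 := by
    rw [Ne, FaithfulSMul.algebraMap_eq_zero_iff]
    exact nonZeroDivisors.coe_ne_zero D
  have hp0 : (p : F) ≠ 0 := by
    exact_mod_cast (Fact.out : p.Prime).ne_zero
  have hx0 : ∀ W ∈ s, algebraMap (𝓞 F) F (x W) ≠ 0 := by
    intro W hW
    rw [hx W hW]
    exact mul_ne_zero hD0 (g W).ne_zero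
  have hM : ∀ W ∈ s, ∃ M : ℕ, WithZero.exp (-(M : ℤ)) <
      W.valuation F (algebraMap (𝓞 F) F (x W)) * W.valuation F (p : F) ^ N := by
    intro W hW
    apply exists_exp_lt
    refine mul_ne_zero ?_ (pow_ne_zero _ ?_)
    · rw [Ne, map_eq_zero]; exact hx0 W hW
    · rw [Ne, map_eq_zero]; exact hp0
  choose! M hM using hM
  obtain ⟨b, hb⟩ := IsDedekindDomain.exists_forall_sub_mem_ideal (s := s)
    (fun W : HeightOneSpectrum (𝓞 F) => W.asIdeal) M (fun W _ => W.prime)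
    (fun W _ W' _ h h' => h (HeightOneSpectrum.ext h')) (fun W => x W)
  have hvp : ∀ W : HeightOneSpectrum (𝓞 F), W.valuation F (p : F) ≤ 1 := by
    intro W
    have := W.valuation_le_one (K := F) ((p : ℕ) : 𝓞 F)
    simpa using this
  have hlt : ∀ W ∈ s, W.valuation F (algebraMap (𝓞 F) F b - algebraMap (𝓞 F) F (x W)) <
      W.valuation F (algebraMap (𝓞 F) F (x W)) * W.valuation F (p : F) ^ N := by
    intro W hW
    refine lt_of_le_of_lt ?_ (hM W hW)
    rw [← map_sub, HeightOneSpectrum.valuation_of_algebraMap]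
    rw [HeightOneSpectrum.intValuation_le_pow_iff_mem]
    exact hb W hW
  have hb0 : algebraMap (𝓞 F) F b ≠ 0 := by
    intro h0
    have h1 := hlt W0 hW0
    rw [h0, zero_sub, Valuation.map_neg] at h1
    have h2 : W0.valuation F (algebraMap (𝓞 F) F (x W0)) * W0.valuation F (p : F) ^ N ≤
        W0.valuation F (algebraMap (𝓞 F) F (x W0)) * 1 :=
      mul_le_mul_right (pow_le_one' (hvp W0) N) _
    rw [mul_one] at h2
    exact absurd (lt_of_lt_of_le h1 h2) (lt_irrefl _)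
  refine ⟨Units.mk0 (algebraMap (𝓞 F) F b / algebraMap (𝓞 F) F D) (div_ne_zero hb0 hD0), ?_⟩
  intro W hW
  have hW' : W ∈ s := hW
  have hgW : ((g W : Fˣ) : F) ≠ 0 := (g W).ne_zero
  have h1 : ((Units.mk0 (algebraMap (𝓞 F) F b / algebraMap (𝓞 F) F D) (div_ne_zero hb0 hD0) : Fˣ) : F) *
      ((g W)⁻¹ : Fˣ) - 1 =
      (algebraMap (𝓞 F) F b - algebraMap (𝓞 F) F (x W)) / algebraMap (𝓞 F) F (x W) := by
    rw [hx W hW', Units.val_mk0, Units.val_inv_eq_inv_val]
    field_simp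
  rw [h1, map_div₀]
  have hvx : 0 < W.valuation F (algebraMap (𝓞 F) F (x W)) := by
    rw [zero_lt_iff, Ne, map_eq_zero]
    exact hx0 W hW'
  have h2 : W.valuation F (algebraMap (𝓞 F) F b - algebraMap (𝓞 F) F (x W)) /
      W.valuation F (algebraMap (𝓞 F) F (x W)) < W.valuation F (p : F) ^ N := by
    rw [div_lt_iff₀ hvx, mul_comm]
    exact hlt W hW'
  exact ⟨lt_of_lt_of_le h2 (pow_le_one' (hvp W) N), h2.le⟩

end Pool.Agent.Helper69.REC
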